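import Pool.Agent.Helper9P.Main

/-!
# Polynomials in arbitrarily weighted determinants and the permanent
-/

set_option autoImplicit false

namespace Pool.Agent.Results.MP_381749_lc.BoundedDegreePolynomials

open Matrix

/-- Suppose that the permanent of every `n × n` matrix `A` with entries `0` and `1` is a sum of
`s` products of weighted determinants `det (W ⊙ A)`, with arbitrary weight matrices `W` and
arbitrary coefficients, in which the number of factors of each product is odd or at most `2 h`.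
Then `s ≥ (9 / 4) ^ ⌊n / (6 * 2 ^ h + h)⌋`. -/
theorem result {K : Type*} [Field K] (h2 : (2 : K) ≠ 0) {h n s : ℕ}
    (hK : ∀ i < h, (2 : K) ^ (2 * i + 2) ≠ 2)
    (c : Fin s → K) (d : Fin s → ℕ) (hd : ∀ k, Odd (d k) ∨ d k ≤ 2 * h)
    (W : ∀ k, Fin (d k) → Matrix (Fin n) (Fin n) K)
    (hper : ∀ A : Matrix (Fin n) (Fin n) K, (∀ a b, A a b = 0 ∨ A a b = 1) →
      A.permanent = ∑ k, c k * ∏ l, (W k l ⊙ A).det) :
    9 ^ (n / (6 * 2 ^ h + h)) ≤ s * 4 ^ (n / (6 * 2 ^ h + h)) :=
  Pool.Agent.Helper9P.main h2 hK c d hd W hper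

end Pool.Agent.Results.MP_381749_lc.BoundedDegreePolynomials
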